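import Pool.Agent.Y706.CH.Stm2

/-!
Degrees of field extensions (project CH of helper706): comparison of degrees (`S_HT`), and the
field of constants (`S_KF`).
-/

set_option autoImplicit false

namespace Pool.Agent.Y968.CH

open Pool.Agent.Y706.CH
open Polynomial
open scoped TensorProduct IntermediateField.algebraAdjoinAdjoin

universe u v

/-- linear independence over the constants and over the rational functions -/
theorem lin_ext {k : Type v} {L : Type u} [Field k] [Field L] [Algebra k L] {t : L}
    (ht : Transcendental k t) {ι : Type u} (b : ι → L) (halg : ∀ i, IsAlgebraic k (b i))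
    (hb : LinearIndependent k b) :
    LinearIndependent (IntermediateField.adjoin k {t}) b := by
  rw [← LinearIndependent.iff_fractionRing (R := Algebra.adjoin k {t})
    (K := IntermediateField.adjoin k {t}), linearIndependent_iff']
  intro s g hg i hi
  have hex : ∀ a : Algebra.adjoin k {t}, ∃ p : k[X], Polynomial.aeval t p = (a : L) := by
    rintro ⟨a, h1⟩
    rw [Algebra.adjoin_singleton_eq_range_aeval] at h1
    exact h1
  choose p hp using fun i => hex (g i)
  -- the field of constants
  set K' := algebraicClosure k L with hK'
  have hbK : ∀ i, b i ∈ K' := fun i => mem_algebraicClosure_iff.2 (halg i)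
  have htK : Transcendental K' t := by
    intro h
    exact ht (IsAlgebraic.restrictScalars k h)
  set P : K'[X] := ∑ i ∈ s, (p i).map (algebraMap k K') * Polynomial.C ⟨b i, hbK i⟩ with hP
  have hP0 : P = 0 := by
    by_contra hne
    apply htK
    refine ⟨P, hne, ?_⟩
    rw [hP, map_sum]
    simp only [map_mul, Polynomial.aeval_map_algebraMap, Polynomial.aeval_C]
    rw [← hg]
    refine Finset.sum_congr rfl fun j _ => ?_
    rw [hp j]
    rfl
  have hc : ∀ n : ℕ, (p i).coeff n = 0 := by
    intro n
    have h1 : P.coeff n = 0 := by rw [hP0, Polynomial.coeff_zero]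
    have h2 : ∑ j ∈ s, (p j).coeff n • b j = 0 := by
      have h3 : ((P.coeff n : K') : L) = ∑ j ∈ s, (p j).coeff n • b j := by
        rw [hP, Polynomial.finsetSum_coeff]
        push_cast
        refine Finset.sum_congr rfl fun j _ => ?_
        rw [Polynomial.coeff_mul_C, Polynomial.coeff_map, Algebra.smul_def]
        rfl
      rw [← h3, h1]
      rfl
    exact linearIndependent_iff'.1 hb s _ h2 i hi
  have hp0 : p i = 0 := Polynomial.ext fun n => by rw [hc n, Polynomial.coeff_zero]
  have h4 := hp i
  rw [hp0, map_zero] at h4
  exact Subtype.ext h4.symm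

theorem t_KF : S_KF.{u, v} := by
  intro k L _ _ _ t ht hfin
  let B := Module.Basis.ofVectorSpace k (algebraicClosure k L)
  have h1 : LinearIndependent k (fun i => ((B i : algebraicClosure k L) : L)) :=
    B.linearIndependent.map' (algebraicClosure k L).val.toLinearMap
      (LinearMap.ker_eq_bot.2 Subtype.val_injective)
  have h2 := lin_ext ht _ (fun i => mem_algebraicClosure_iff.1 (B i).2) h1
  have h3 : Finite (Module.Basis.ofVectorSpaceIndex k (algebraicClosure k L)) := h2.finite
  have : Fintype (Module.Basis.ofVectorSpaceIndex k (algebraicClosure k L)) :=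
    Fintype.ofFinite _
  refine ⟨Module.Finite.of_basis B, ?_⟩
  rw [Module.finrank_eq_card_basis B]
  exact h2.fintype_card_le_finrank

/-- the compositum with a finite extension of the constants -/
theorem comp_le {k : Type v} {k' L : Type u} [Field k] [Field k'] [Field L] [Algebra k k']
    [Algebra k L] [Algebra k' L] [IsScalarTower k k' L] [FiniteDimensional k k'] (z : L) :
    ∃ F : IntermediateField (IntermediateField.adjoin k {z}) L,
      (F : Set L) = (IntermediateField.adjoin k' {z} : Set L) ∧
      1 ≤ Module.finrank (IntermediateField.adjoin k {z}) F ∧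
      Module.finrank (IntermediateField.adjoin k {z}) F ≤ Module.finrank k k' := by
  set F0 := IntermediateField.adjoin k {z} with hF0
  let φ : F0 ⊗[k] k' →ₐ[F0] L := Algebra.TensorProduct.lift (Algebra.ofId F0 L)
    (IsScalarTower.toAlgHom k k' L) (fun _ _ => Commute.all _ _)
  have hfd : FiniteDimensional F0 φ.range := by
    have : FiniteDimensional F0 (LinearMap.range φ.toLinearMap) := inferInstance
    exact this
  have hle : Module.finrank F0 φ.range ≤ Module.finrank k k' := by
    have h1 := LinearMap.finrank_range_le φ.toLinearMap
    rw [Module.finrank_baseChange] at h1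
    exact h1
  have hinv : ∀ y ∈ φ.range, y⁻¹ ∈ φ.range := by
    intro y hy
    have h1 : IsAlgebraic F0 (⟨y, hy⟩ : φ.range) := Algebra.IsAlgebraic.isAlgebraic _
    have h2 : IsAlgebraic F0 ((⟨y, hy⟩ : φ.range) : L) := h1.algebraMap
    exact Subalgebra.inv_mem_of_algebraic φ.range h2
  refine ⟨φ.range.toIntermediateField hinv, ?_, ?_, hle⟩
  · apply Set.Subset.antisymm
    · rintro y ⟨a, rfl⟩
      show φ a ∈ IntermediateField.adjoin k' {z}
      induction a using TensorProduct.induction_on with
      | zero => rw [map_zero]; exact zero_mem _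
      | add a b ha hb => rw [map_add]; exact add_mem ha hb
      | tmul a c =>
        show φ (a ⊗ₜ[k] c) ∈ _
        rw [Algebra.TensorProduct.lift_tmul]
        refine mul_mem ?_ ?_
        · show (a : L) ∈ _
          have h1 : F0 ≤ (IntermediateField.adjoin k' {z}).restrictScalars k := by
            rw [hF0, IntermediateField.adjoin_le_iff]
            exact IntermediateField.subset_adjoin k' {z}
          exact h1 a.2
        · exact (IntermediateField.adjoin k' {z}).algebraMap_mem c
    · intro y hy
      show y ∈ φ.range
      have hy' : y ∈ IntermediateField.adjoin k' {z} := hy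
      induction hy' using IntermediateField.adjoin_induction with
      | mem x hx =>
        rw [Set.mem_singleton_iff] at hx
        rw [hx]
        refine ⟨⟨z, IntermediateField.mem_adjoin_simple_self k z⟩ ⊗ₜ[k] 1, ?_⟩
        show φ _ = z
        rw [Algebra.TensorProduct.lift_tmul, map_one, mul_one]
        rfl
      | algebraMap c =>
        refine ⟨1 ⊗ₜ[k] c, ?_⟩
        show φ _ = _
        rw [Algebra.TensorProduct.lift_tmul, map_one, one_mul]
        rfl
      | add a b ha hb h1 h2 => exact add_mem (h1 ha) (h2 hb)
      | mul a b ha hb h1 h2 => exact mul_mem (h1 ha) (h2 hb)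
      | inv a ha h1 => exact hinv _ (h1 ha)
  · have : FiniteDimensional F0 (φ.range.toIntermediateField hinv) := hfd
    exact Module.finrank_pos

theorem t_HT : S_HT.{u, v} := by
  intro k k' E L _ _ _ _ _ _ _ _ _ _ _ _ _ t ht htE x
  set z : L := algebraMap E L x with hz
  obtain ⟨F, hF, h1, h2⟩ := comp_le (k := k) (k' := k') z
  -- the tower over `k (z)`
  have e1 : Module.finrank (IntermediateField.adjoin k {z}) F * Module.finrank F L =
      Module.finrank (IntermediateField.adjoin k {z}) L := Module.finrank_mul_finrank _ _ _
  -- the tower over `k' (x)`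
  have e2 : Module.finrank (IntermediateField.adjoin k' {x}) E * Module.finrank E L =
      Module.finrank (IntermediateField.adjoin k' {x}) L := Module.finrank_mul_finrank _ _ _
  -- comparison
  let f : E →ₐ[k'] L := IsScalarTower.toAlgHom k' E L
  have hmap : (IntermediateField.adjoin k' {x}).map f = IntermediateField.adjoin k' {z} := by
    rw [IntermediateField.adjoin_map, Set.image_singleton]
    rfl
  have hfF : ∀ y : L, y ∈ F ↔ ∃ a ∈ IntermediateField.adjoin k' {x}, algebraMap E L a = y := by
    intro y
    have : y ∈ F ↔ y ∈ (IntermediateField.adjoin k' {x}).map f := by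
      rw [hmap]
      exact Set.ext_iff.1 hF y
    rw [this]
    rfl
  let g : IntermediateField.adjoin k' {x} →+* F :=
    { toFun := fun a => ⟨algebraMap E L a, (hfF _).2 ⟨a, a.2, rfl⟩⟩
      map_one' := Subtype.ext (map_one (algebraMap E L))
      map_mul' := fun a b => Subtype.ext (map_mul (algebraMap E L) _ _)
      map_zero' := Subtype.ext (map_zero (algebraMap E L))
      map_add' := fun a b => Subtype.ext (map_add (algebraMap E L) _ _) }
  have hg : Function.Bijective g := by
    refine ⟨g.injective, ?_⟩
    rintro ⟨y, hy⟩
    obtain ⟨a, ha, rfl⟩ := (hfF y).1 hy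
    exact ⟨⟨a, ha⟩, rfl⟩
  have e3 : Module.finrank (IntermediateField.adjoin k' {x}) L = Module.finrank F L := by
    refine Algebra.finrank_eq_of_equiv_equiv (RingEquiv.ofBijective g hg) (RingEquiv.refl L) ?_
    ext a
    rfl
  have h3 : 1 ≤ Module.finrank E L := Module.finrank_pos
  rw [← e1, ← e3, ← e2]
  set a := Module.finrank (IntermediateField.adjoin k' {x}) E
  set d := Module.finrank (IntermediateField.adjoin k {z}) F
  set l := Module.finrank E L
  constructor
  · calc a = 1 * (a * 1) := by ring
      _ ≤ d * (a * l) := Nat.mul_le_mul h1 (Nat.mul_le_mul le_rfl h3)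
  · calc d * (a * l) ≤ Module.finrank k k' * (a * l) := Nat.mul_le_mul h2 le_rfl
      _ = _ := by ring

end Pool.Agent.Y968.CH
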